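import Pool.Agent.W110.HV.Final
import Pool.Agent.W110.HV.Classes

/-!
# Hooley's conjecture for almost all moduli `q ≥ X^(1-δ)`, up to the characters of small conductor

Hooley's conjecture says that the variance
`G(X,q) = ∑_{a mod q, (a,q)=1} |ψ(X;q,a) - X/φ(q)|²` is asymptotic to `X log q` for
`X^(1/2+ε) < q < X`.  Write `ψ(X;q,a) = φ(q)⁻¹ ∑_{χ mod q} conj χ(a) ψ(X,χ)`.  For `q < X^(1-δ)` even
the contribution `(ψ(X,χ₀) - X)²/φ(q)` of the principal character cannot be bounded by `o(X log q)`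
without a zero free half plane of the zeta function, and the same holds for every fixed conductor.

We prove, without any hypothesis, that these characters are the only obstruction for almost all
moduli: let `G_R(X,q)` be the variance around the contribution of the characters of conductor at
most `R`,
`G_R(X,q) = ∑_{a mod q, (a,q)=1} |ψ(X;q,a) - φ(q)⁻¹ ∑_{cond χ ≤ R} conj χ(a) ψ(X,χ)|²`.
Then for all `ε, η > 0` there is `δ > 0` such that for large `X`, `X^(1-δ) ≤ K ≤ X` and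
`X^η ≤ R ≤ X^(1-η)`: `|G_R(X,q) - X log q| ≤ ε X log q` for all but at most `ε K` of the moduli
`q ∈ (K, 2K]`.  Since `G(X,q) ≥ G_R(X,q)`, the lower bound in Hooley's conjecture,
`G(X,q) ≥ (1-ε) X log q`, holds for all but `ε K` of the moduli `q ∈ (K,2K]`.

Proof.  Let `u` be the logarithms of the primes in `(√X, X]`, and `E` the convolution of `u` with a
sum of Fejér kernels at the fractions with denominators at most `P = X^η₁`, and `f = u - E`.
* The exponential sum of `f` is `≤ X^(1-c)` everywhere (Vinogradov).  Therefore the off-diagonal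
  correlations of `f` along multiples of `q` are small for almost all `q`.
* `∑ |E|² ≤ C η₁ ∑ |u|²`, by the large sieve for sifted sequences (Ramaré), as `u` is supported on
  integers without small prime factors; by the large sieve, `E` contributes little to the fractions
  `b/q` with reduced denominators `> y = X^η₂`, on average over `q`.
* `log` of the `y`-smooth part `m` of `q` is at most `C log y` on average; the characters with
  conductor dividing `m` correspond exactly to the characters modulo `m`, and the characters with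
  conductor in `(y, R]` are estimated by the large sieve.
-/

open Finset

namespace Pool.Agent.Results.MP_5d318d_nt.AlmostAllLargeConductor

/-- `ψ(X; q, a) = ∑_{n ≤ X, n ≡ a mod q} Λ(n)` for `0 ≤ a < q` -/
noncomputable def psiAP (X : ℝ) (q a : ℕ) : ℝ :=
  ∑ n ∈ (Icc 1 ⌊X⌋₊).filter (fun n => n % q = a), ArithmeticFunction.vonMangoldt n

/-- `ψ(X, χ) = ∑_{n ≤ X} Λ(n) χ(n)` -/
noncomputable def psiChi (X : ℝ) {q : ℕ} (χ : DirichletCharacter ℂ q) : ℂ :=
  ∑ n ∈ Icc 1 ⌊X⌋₊, ((ArithmeticFunction.vonMangoldt n : ℝ) : ℂ) * χ (n : ZMod q)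

/-- `G(X,q) = ∑_{a mod q, (a,q)=1} (ψ(X;q,a) - X/φ(q))²` -/
noncomputable def G (X : ℝ) (q : ℕ) : ℝ :=
  ∑ a ∈ (range q).filter (fun a => Nat.Coprime a q), (psiAP X q a - X / (Nat.totient q : ℝ)) ^ 2

open Classical in
/-- the contribution `φ(q)⁻¹ ∑_{cond χ ≤ R} conj χ(a) ψ(X, χ)` of the characters modulo `q` of
conductor at most `R` to `ψ(X; q, a)` -/
noncomputable def smallPart (X : ℝ) (q R a : ℕ) : ℂ :=
  (1 / (Nat.totient q : ℂ)) * ∑ χ ∈ (univ : Finset (DirichletCharacter ℂ q)).filter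
    (fun χ => χ.conductor ≤ R), (starRingEnd ℂ) (χ (a : ZMod q)) * psiChi X χ

/-- the variance around the contribution of the characters of conductor at most `R`:
`G_R(X,q) = ∑_{a mod q, (a,q)=1} |ψ(X;q,a) - φ(q)⁻¹ ∑_{cond χ ≤ R} conj χ(a) ψ(X,χ)|²` -/
noncomputable def GR (X : ℝ) (q R : ℕ) : ℝ :=
  ∑ a ∈ (range q).filter (fun a => Nat.Coprime a q), ‖(psiAP X q a : ℂ) - smallPart X q R a‖ ^ 2

/-- comparison of `N log N`, `X log X` and `X log q` -/
lemma compare (ε : ℝ) (hε : 0 < ε) (hε1 : ε ≤ 1) : ∃ X₀ : ℝ, 2 ≤ X₀ ∧ ∀ X : ℝ, X₀ ≤ X →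
    ∀ q : ℕ, X ^ (1 - ε / 8) ≤ q → (q : ℝ) ≤ 2 * X →
    0 < X * Real.log X ∧
    |(⌊X⌋₊ : ℝ) * Real.log ⌊X⌋₊ - X * Real.log X| ≤ ε / 8 * (X * Real.log X) ∧
    |X * Real.log q - X * Real.log X| ≤ ε / 8 * (X * Real.log X) := by
  have h1 := Real.tendsto_log_atTop.eventually (Filter.eventually_ge_atTop (16 / ε))
  obtain ⟨x0, hx0⟩ := Filter.eventually_atTop.1 h1
  refine ⟨max (max x0 (16 / ε)) 2, le_max_right _ _, fun X hX q hq hq2 => ?_⟩
  have hX1 : x0 ≤ X := le_trans (le_trans (le_max_left _ _) (le_max_left _ _)) hX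
  have hX2 : 16 / ε ≤ X := le_trans (le_trans (le_max_right _ _) (le_max_left _ _)) hX
  have hX3 : 2 ≤ X := le_trans (le_max_right _ _) hX
  have hX0 : 0 < X := by linarith
  set L := Real.log X with hL
  have hLb : 16 / ε ≤ L := hx0 X hX1
  have h16 : 16 ≤ ε * L := by
    rw [div_le_iff₀ hε] at hLb
    linarith
  have h16X : 16 ≤ ε * X := by
    rw [div_le_iff₀ hε] at hX2
    linarith
  have hL0 : 0 < L := by
    have : 0 < 16 / ε := by positivity
    linarith
  have hL16 : 16 ≤ L := by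
    have : ε * L ≤ 1 * L := mul_le_mul_of_nonneg_right hε1 hL0.le
    linarith
  have hlog2 : Real.log 2 ≤ 1 := by
    have := Real.log_two_lt_d9
    linarith
  have hlog20 : 0 < Real.log 2 := Real.log_pos (by norm_num)
  set N : ℝ := (⌊X⌋₊ : ℝ) with hN
  have hN1 : N ≤ X := Nat.floor_le hX0.le
  have hN2 : X - 1 < N := by
    have := Nat.lt_floor_add_one X
    rw [← hN] at this
    linarith
  have hNX : X / 2 ≤ N := by linarith
  have hN0 : 0 < N := by linarith
  have hXL : 0 < X * L := by positivity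
  refine ⟨hXL, ?_, ?_⟩
  · have hlN1 : Real.log N ≤ L := Real.log_le_log hN0 hN1
    have hlN2 : L - Real.log 2 ≤ Real.log N := by
      rw [hL, ← Real.log_div hX0.ne' (by norm_num)]
      exact Real.log_le_log (by positivity) hNX
    have hlN0 : 0 ≤ Real.log N := by linarith
    have hup : N * Real.log N ≤ X * L := mul_le_mul hN1 hlN1 hlN0 hX0.le
    have hlo : X * L - X - L ≤ N * Real.log N := by
      have h2 : (X - 1) * (L - Real.log 2) ≤ N * Real.log N :=
        mul_le_mul hN2.le hlN2 (by linarith) hN0.le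
      nlinarith
    have h3 : X + L ≤ ε / 8 * (X * L) := by
      have h4 : 16 * X ≤ ε * L * X := mul_le_mul_of_nonneg_right h16 hX0.le
      have h5 : 16 * L ≤ ε * X * L := mul_le_mul_of_nonneg_right h16X hL0.le
      linarith
    rw [abs_le]
    constructor <;> linarith
  · have hq0 : (0 : ℝ) < q := lt_of_lt_of_le (by positivity) hq
    have h2 : (1 - ε / 8) * L ≤ Real.log q := by
      rw [hL, ← Real.log_rpow hX0]
      exact Real.log_le_log (by positivity) hq
    have h3 : Real.log q ≤ Real.log 2 + L := by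
      rw [hL, ← Real.log_mul (by norm_num) hX0.ne']
      exact Real.log_le_log hq0 hq2
    have h4 : |Real.log q - L| ≤ ε / 8 * L := by
      rw [abs_le]
      constructor <;> linarith
    rw [← mul_sub, abs_mul, abs_of_pos hX0]
    calc X * |Real.log q - L| ≤ X * (ε / 8 * L) := mul_le_mul_of_nonneg_left h4 hX0.le
      _ = _ := by ring

open Classical in
/-- **Theorem.** Let `ε, η > 0`. There are `δ > 0` and `X₀` such that for all real `X ≥ X₀` and all
integers `K` with `X^(1-δ) ≤ K ≤ X`: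
* `G(X,q) ≥ (1-ε) X log q` for all but at most `ε K` of the moduli `q ∈ (K, 2K]`;
* for every integer `R` with `X^η ≤ R ≤ X^(1-η)`, `|G_R(X,q) - X log q| ≤ ε X log q` for all but at
  most `ε K` of the moduli `q ∈ (K, 2K]`. -/
theorem result (ε η : ℝ) (hε : 0 < ε) (hη : 0 < η) :
    ∃ δ : ℝ, 0 < δ ∧ ∃ X₀ : ℝ, ∀ X : ℝ, X₀ ≤ X → ∀ K : ℕ, X ^ (1 - δ) ≤ K → (K : ℝ) ≤ X →
      ((((Ioc K (2 * K)).filter
          (fun q : ℕ => ¬ ((1 - ε) * (X * Real.log q) ≤ G X q))).card : ℕ) : ℝ) ≤ ε * K ∧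
      ∀ R : ℕ, X ^ η ≤ R → (R : ℝ) ≤ X ^ (1 - η) →
        ((((Ioc K (2 * K)).filter
          (fun q : ℕ => ¬ |GR X q R - X * Real.log q| ≤ ε * (X * Real.log q))).card : ℕ) : ℝ) ≤
          ε * K := by
  wlog hε1 : ε ≤ 1 generalizing ε with hw
  · push Not at hε1
    obtain ⟨δ, hδ, X₀, h⟩ := hw 1 one_pos le_rfl
    refine ⟨δ, hδ, max X₀ 1, fun X hX K hK hKX => ?_⟩
    obtain ⟨h1, h2⟩ := h X (le_trans (le_max_left _ _) hX) K hK hKX
    have hX1 : 1 ≤ X := le_trans (le_max_right _ _) hX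
    have hK0 : (0 : ℝ) ≤ K := by positivity
    have hKε : 1 * (K : ℝ) ≤ ε * K := mul_le_mul_of_nonneg_right hε1.le hK0
    have hsub : ∀ A B : Finset ℕ, A ⊆ B → (A.card : ℝ) ≤ B.card := fun A B h => by
      exact_mod_cast card_le_card h
    have hl : ∀ q : ℕ, 0 ≤ X * Real.log q := fun q => by
      have := Real.log_natCast_nonneg q
      positivity
    refine ⟨le_trans (hsub _ _ ?_) (h1.trans hKε), fun R hR1 hR2 =>
      le_trans (hsub _ _ ?_) ((h2 R hR1 hR2).trans hKε)⟩
    · intro q hq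
      rw [mem_filter] at hq ⊢
      refine ⟨hq.1, fun hc => hq.2 (le_trans ?_ hc)⟩
      exact mul_le_mul_of_nonneg_right (by linarith) (hl q)
    · intro q hq
      rw [mem_filter] at hq ⊢
      refine ⟨hq.1, fun hc => hq.2 (le_trans hc ?_)⟩
      exact mul_le_mul_of_nonneg_right hε1.le (hl q)
  obtain ⟨δ1, hδ1, N1, m1⟩ := Pool.Agent.W110.HV.main (ε / 8) (η / 2) (by positivity) (by positivity)
  obtain ⟨δ2, hδ2, N2, m2⟩ := Pool.Agent.W110.HV.main (ε / 8) (1 / 4) (by positivity) (by norm_num)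
  obtain ⟨x1, hx12, hcmp⟩ := compare ε hε hε1
  obtain ⟨n3, h3⟩ := Pool.Agent.W110.HV.ev_const 2 (η / 2) (by positivity)
  obtain ⟨n4, h4⟩ := Pool.Agent.W110.HV.ev_const 2 (1 / 4) (by norm_num)
  set δ : ℝ := min (min δ1 δ2) (ε / 8) with hδ
  have hδ0 : 0 < δ := lt_min (lt_min hδ1 hδ2) (by positivity)
  have hδδ1 : δ ≤ δ1 := (min_le_left _ _).trans (min_le_left _ _)
  have hδδ2 : δ ≤ δ2 := (min_le_left _ _).trans (min_le_right _ _)
  have hδε : δ ≤ ε / 8 := min_le_right _ _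
  refine ⟨δ, hδ0, max x1 ((max (max N1 N2) (max n3 n4) : ℕ) + 1 : ℝ), fun X hX K hK hKX => ?_⟩
  have hXx : x1 ≤ X := le_trans (le_max_left _ _) hX
  have hX2 : 2 ≤ X := hx12.trans hXx
  have hX0 : 0 < X := by linarith
  have hX1 : 1 ≤ X := by linarith
  set N : ℕ := ⌊X⌋₊ with hN
  have hNX : (N : ℝ) ≤ X := Nat.floor_le hX0.le
  have hXN : X < (N : ℝ) + 1 := Nat.lt_floor_add_one X
  have hNbig : max (max N1 N2) (max n3 n4) ≤ N := by
    have h1 : (((max (max N1 N2) (max n3 n4) : ℕ) : ℝ) + 1) ≤ X := le_trans (le_max_right _ _) hX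
    have h2 : (((max (max N1 N2) (max n3 n4) : ℕ) : ℝ)) < (N : ℝ) + 1 := by linarith
    have h3 : (max (max N1 N2) (max n3 n4) : ℕ) < N + 1 := by exact_mod_cast h2
    omega
  simp only [max_le_iff] at hNbig
  obtain ⟨⟨g1, g2⟩, g3, g4⟩ := hNbig
  have e3 := h3 N g3
  have e4 := h4 N g4
  have hN2r : (1 : ℝ) < N := by linarith
  have hN1r : (1 : ℝ) ≤ N := by linarith
  have hN0 : (0 : ℝ) < N := by linarith
  have hX2N : X ≤ 2 * N := by linarith
  have hKN : K ≤ N := Nat.le_floor hKX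
  have hKδ : ∀ d : ℝ, δ ≤ d → (N : ℝ) ^ (1 - d) ≤ K := by
    intro d hd
    calc (N : ℝ) ^ (1 - d) ≤ (N : ℝ) ^ (1 - δ) := Real.rpow_le_rpow_of_exponent_le hN1r (by linarith)
      _ ≤ X ^ (1 - δ) := Real.rpow_le_rpow hN0.le hNX (by linarith)
      _ ≤ K := hK
  -- facts for the moduli
  have hq : ∀ q ∈ Ioc K (2 * K), 1 ≤ q ∧ X ^ (1 - ε / 8) ≤ q ∧ (q : ℝ) ≤ 2 * X := by
    intro q hq
    rw [mem_Ioc] at hq
    refine ⟨by omega, ?_, ?_⟩
    · calc X ^ (1 - ε / 8) ≤ X ^ (1 - δ) := Real.rpow_le_rpow_of_exponent_le hX1 (by linarith)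
        _ ≤ K := hK
        _ ≤ q := by exact_mod_cast hq.1.le
    · have : (q : ℝ) ≤ 2 * K := by exact_mod_cast hq.2
      linarith
  have hcard : ∀ A B : Finset ℕ, A ⊆ B → (A.card : ℝ) ≤ B.card := fun A B h => by
    exact_mod_cast card_le_card h
  have hK0 : (0 : ℝ) ≤ K := by positivity
  have hKε : ε / 8 * (K : ℝ) ≤ ε * K := mul_le_mul_of_nonneg_right (by linarith) hK0
  constructor
  · -- the lower bound for `G`
    set R : ℕ := ⌈(N : ℝ) ^ (1 / 4 : ℝ)⌉₊ with hR
    have hR1 : (N : ℝ) ^ (1 / 4 : ℝ) ≤ R := Nat.le_ceil _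
    have hR2 : (R : ℝ) ≤ (N : ℝ) ^ (1 - 1 / 4 : ℝ) := by
      have h5 : (R : ℝ) < (N : ℝ) ^ (1 / 4 : ℝ) + 1 := Nat.ceil_lt_add_one (by positivity)
      calc (R : ℝ) ≤ 2 * (N : ℝ) ^ (1 / 4 : ℝ) := by linarith
        _ ≤ (N : ℝ) ^ (1 / 4 : ℝ) * (N : ℝ) ^ (1 / 4 : ℝ) := mul_le_mul_of_nonneg_right e4 (by positivity)
        _ = (N : ℝ) ^ (1 / 4 + 1 / 4 : ℝ) := by rw [Real.rpow_add hN0]
        _ ≤ _ := Real.rpow_le_rpow_of_exponent_le hN1r (by norm_num)
    have hR0 : 1 ≤ R := by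
      have : (0 : ℝ) < R := lt_of_lt_of_le (by positivity) hR1
      exact_mod_cast this
    have hm := m2 N g2 K (hKδ δ2 hδδ2) hKN R hR1 hR2
    refine le_trans (hcard _ _ ?_) (hm.trans hKε)
    intro q hqm
    rw [mem_filter] at hqm ⊢
    refine ⟨hqm.1, ?_⟩
    by_contra hcon
    push Not at hcon
    apply hqm.2
    obtain ⟨hq1, hq2, hq3⟩ := hq q hqm.1
    have hNZ : NeZero q := ⟨by omega⟩
    obtain ⟨hXL, c1, c2⟩ := hcmp X hXx q hq2 hq3
    have hφ : (0 : ℝ) < Nat.totient q := by exact_mod_cast Nat.totient_pos.2 hq1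
    have hG := Pool.Agent.W110.HV.G_ge q X R hR0
    have hGe : Pool.Agent.W110.HV.G X q = G X q := rfl
    rw [hGe] at hG
    have h5 := (abs_le.1 hcon).1
    have h6 : (1 - ε / 8) * (Nat.totient q * (N * Real.log N)) ≤ Nat.totient q * G X q := by
      refine le_trans ?_ hG
      have : ∑ χ ∈ (univ : Finset (DirichletCharacter ℂ q)).filter (fun χ => R < χ.conductor),
        ‖∑ n ∈ Icc 1 N, ((ArithmeticFunction.vonMangoldt n : ℝ) : ℂ) * χ (n : ZMod q)‖ ^ 2 =
        ∑ χ ∈ (univ : Finset (DirichletCharacter ℂ q)).filter (fun χ => R < χ.conductor),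
          ‖Pool.Agent.W110.HV.psiChi X χ‖ ^ 2 := rfl
      rw [this] at h5
      linarith
    have h7 : (1 - ε / 8) * (N * Real.log N) ≤ G X q := by
      have : Nat.totient q * ((1 - ε / 8) * (N * Real.log N)) ≤ Nat.totient q * G X q := by
        linarith
      exact le_of_mul_le_mul_left this hφ
    have c1' := (abs_le.1 c1).1
    have c2' := (abs_le.1 c2).2
    set T := X * Real.log X with hT
    have h8 : (1 - ε / 8) * T ≤ N * Real.log N := by linarith
    have h9 : X * Real.log q ≤ (1 + ε / 8) * T := by linarith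
    calc (1 - ε) * (X * Real.log q) ≤ (1 - ε) * ((1 + ε / 8) * T) :=
          mul_le_mul_of_nonneg_left h9 (by linarith)
      _ ≤ (1 - ε / 8) * ((1 - ε / 8) * T) := by
          have h10 : (1 - ε) * (1 + ε / 8) ≤ (1 - ε / 8) * (1 - ε / 8) := by nlinarith
          have := mul_le_mul_of_nonneg_right h10 hXL.le
          linarith
      _ ≤ (1 - ε / 8) * (N * Real.log N) := mul_le_mul_of_nonneg_left h8 (by linarith)
      _ ≤ _ := h7
  · -- the asymptotic formula
    intro R hR1 hR2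
    have hR1' : (N : ℝ) ^ (η / 2) ≤ R := by
      calc (N : ℝ) ^ (η / 2) ≤ X ^ (η / 2) := Real.rpow_le_rpow hN0.le hNX (by positivity)
        _ ≤ X ^ η := Real.rpow_le_rpow_of_exponent_le hX1 (by linarith)
        _ ≤ R := hR1
    have hη1 : η ≤ 1 := by
      by_contra hc
      push Not at hc
      have h5 : X ^ (1 - η) ≤ 1 := by
        calc X ^ (1 - η) ≤ X ^ (0 : ℝ) := Real.rpow_le_rpow_of_exponent_le hX1 (by linarith)
          _ = 1 := Real.rpow_zero _
      have h6 : X ≤ X ^ η := by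
        calc X = X ^ (1 : ℝ) := (Real.rpow_one _).symm
          _ ≤ _ := Real.rpow_le_rpow_of_exponent_le hX1 hc.le
      linarith
    have hR2' : (R : ℝ) ≤ (N : ℝ) ^ (1 - η / 2) := by
      calc (R : ℝ) ≤ X ^ (1 - η) := hR2
        _ ≤ (2 * (N : ℝ)) ^ (1 - η) := Real.rpow_le_rpow hX0.le hX2N (by linarith)
        _ = 2 ^ (1 - η) * (N : ℝ) ^ (1 - η) := Real.mul_rpow (by norm_num) hN0.le
        _ ≤ 2 ^ (1 : ℝ) * (N : ℝ) ^ (1 - η) := by
            apply mul_le_mul_of_nonneg_right _ (by positivity)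
            exact Real.rpow_le_rpow_of_exponent_le (by norm_num) (by linarith)
        _ = 2 * (N : ℝ) ^ (1 - η) := by rw [Real.rpow_one]
        _ ≤ (N : ℝ) ^ (η / 2) * (N : ℝ) ^ (1 - η) := mul_le_mul_of_nonneg_right e3 (by positivity)
        _ = _ := by
            rw [← Real.rpow_add hN0]
            congr 1
            ring
    have hm := m1 N g1 K (hKδ δ1 hδδ1) hKN R hR1' hR2'
    refine le_trans (hcard _ _ ?_) (hm.trans hKε)
    intro q hqm
    rw [mem_filter] at hqm ⊢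
    refine ⟨hqm.1, ?_⟩
    by_contra hcon
    push Not at hcon
    apply hqm.2
    obtain ⟨hq1, hq2, hq3⟩ := hq q hqm.1
    have hNZ : NeZero q := ⟨by omega⟩
    obtain ⟨hXL, c1, c2⟩ := hcmp X hXx q hq2 hq3
    have hφ : (0 : ℝ) < Nat.totient q := by exact_mod_cast Nat.totient_pos.2 hq1
    have hG := Pool.Agent.W110.HV.GR_eq q X R
    have hGe : Pool.Agent.W110.HV.GR X q R = GR X q R := rfl
    rw [hGe] at hG
    have this : ∑ χ ∈ (univ : Finset (DirichletCharacter ℂ q)).filter (fun χ => R < χ.conductor),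
      ‖∑ n ∈ Icc 1 N, ((ArithmeticFunction.vonMangoldt n : ℝ) : ℂ) * χ (n : ZMod q)‖ ^ 2 =
      ∑ χ ∈ (univ : Finset (DirichletCharacter ℂ q)).filter (fun χ => R < χ.conductor),
        ‖Pool.Agent.W110.HV.psiChi X χ‖ ^ 2 := rfl
    rw [this, ← hG, ← mul_sub, abs_mul, abs_of_pos hφ] at hcon
    have h7 : |GR X q R - N * Real.log N| ≤ ε / 8 * (N * Real.log N) := by
      have : Nat.totient q * |GR X q R - N * Real.log N| ≤ Nat.totient q * (ε / 8 * (N * Real.log N)) := by
        linarith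
      exact le_of_mul_le_mul_left this hφ
    set T := X * Real.log X with hT
    have c1' := abs_le.1 c1
    have c2' := abs_le.1 c2
    have h7' := abs_le.1 h7
    have h8 : N * Real.log N ≤ (1 + ε / 8) * T := by linarith [c1'.2]
    have h9 : ε / 8 * (N * Real.log N) ≤ ε / 4 * T := by
      have h10 := mul_le_mul_of_nonneg_left h8 (show 0 ≤ ε / 8 by positivity)
      have h11 : ε / 8 * ((1 + ε / 8) * T) ≤ ε / 4 * T := by
        have h12 : ε / 8 * (1 + ε / 8) ≤ ε / 4 := by nlinarith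
        have := mul_le_mul_of_nonneg_right h12 hXL.le
        linarith
      linarith
    have h10 : |GR X q R - X * Real.log q| ≤ ε / 2 * T := by
      rw [abs_le]
      constructor <;> linarith [c1'.1, c1'.2, c2'.1, c2'.2, h7'.1, h7'.2]
    have h11 : (1 / 2) * T ≤ X * Real.log q := by
      have : ε / 8 * T ≤ 1 / 2 * T := mul_le_mul_of_nonneg_right (by linarith) hXL.le
      linarith [c2'.1]
    calc |GR X q R - X * Real.log q| ≤ ε / 2 * T := h10
      _ = ε * (1 / 2 * T) := by ring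
      _ ≤ ε * (X * Real.log q) := mul_le_mul_of_nonneg_left h11 hε.le

end Pool.Agent.Results.MP_5d318d_nt.AlmostAllLargeConductor
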