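import Pool.Agent.H336R2.V.Main

open Finset

/-!
# Unconditional lower bound for the variance of primes in progressions, for EVERY modulus

`G(X,k) = ∑_{A mod k, (A,k)=1} (ψ(X;k,A) - X/φ(k))²`.  We prove, without any hypothesis,
`G(X,k) ≥ X (3/2 log k - log X - ε log X)` for all `X ≥ X₀(ε)` and all moduli `1 ≤ k ≤ X`.
For `k = X^θ` this reads `G(X,k) ≥ (3/2 - 1/θ - ε/θ) X log k`, which is positive as soon as
`θ > 2/3`; Friedlander and Goldston obtained this bound under the Generalized Riemann Hypothesis,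
and unconditionally only for `k ≥ X/(log X)^A`.
-/

namespace Pool.Agent.Results.MP_5d318d_nt.EveryModulusLower

open Classical in
/-- For every `ε > 0` there is `X₀` such that for every real `X ≥ X₀` and EVERY integer modulus
`1 ≤ k ≤ X`: `G(X,k) ≥ X (3/2 log k - log X - ε log X)`. -/
theorem result (ε : ℝ) (hε : 0 < ε) : ∃ X₀ : ℝ, ∀ X : ℝ, X₀ ≤ X → ∀ k : ℕ, 1 ≤ k → (k : ℝ) ≤ X →
    X * (3 / 2 * Real.log k - Real.log X - ε * Real.log X) ≤
      ∑ A ∈ (range k).filter (fun A => A.Coprime k),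
        ((∑ n ∈ (Icc 1 ⌊X⌋₊).filter (fun n => n ≡ A [MOD k]), ArithmeticFunction.vonMangoldt n)
          - X / Nat.totient k) ^ 2 :=
  H336V.main ε hε

end Pool.Agent.Results.MP_5d318d_nt.EveryModulusLower
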